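import Pool.Agent.H77.Nu.BlkS.Cert0
import Pool.Agent.H77.Nu.BlkS.Cert1
import Pool.Agent.H77.Nu.BlkS.Cert2
import Pool.Agent.H77.Nu.BlkS.Cert3

/-!
A block of 8 columns (MP_1e71f9_co): integer matrix, windows and certificates.
-/

set_option autoImplicit false

namespace Pool.Agent.H77.Nu.BlkS

open Finset Pool.Agent.H67.Nu Pool.Agent.H77.Nu

/-- All lists of certificates. -/
def bCert : List (List ℕ) := [cert0, cert1, cert2, cert3, cert4, cert5, cert6, cert7, cert8, cert9, cert10, cert11, cert12, cert13, cert14, cert15, cert16, cert17, cert18, cert19, cert20]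

theorem chk_all : ∀ r < 21, (bCert.getD r []).length = 256 ∧
    chkL bB 8 (bTab.getD r 0) (ext (bRows r)) 0 (bCert.getD r []) = true := by
  intro r hr
  interval_cases r
  · exact ⟨len0, chk0⟩
  · exact ⟨len1, chk1⟩
  · exact ⟨len2, chk2⟩
  · exact ⟨len3, chk3⟩
  · exact ⟨len4, chk4⟩
  · exact ⟨len5, chk5⟩
  · exact ⟨len6, chk6⟩
  · exact ⟨len7, chk7⟩
  · exact ⟨len8, chk8⟩
  · exact ⟨len9, chk9⟩
  · exact ⟨len10, chk10⟩
  · exact ⟨len11, chk11⟩
  · exact ⟨len12, chk12⟩
  · exact ⟨len13, chk13⟩
  · exact ⟨len14, chk14⟩
  · exact ⟨len15, chk15⟩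
  · exact ⟨len16, chk16⟩
  · exact ⟨len17, chk17⟩
  · exact ⟨len18, chk18⟩
  · exact ⟨len19, chk19⟩
  · exact ⟨len20, chk20⟩

/-- The level (relative to the lowest one) after the window with the first row `r` and the code
`c` and one more column with sign `y`; the sign before is `true`. -/
def nT (r c : ℕ) (y : Bool) : ℕ :=
  if y = (bG.testBit (r + wk (bTab.getD r 0) c - 1) == ws (bTab.getD r 0) c)
  then r + wk (bTab.getD r 0) c - 1 else r + wk (bTab.getD r 0) c

/-- The same, the sign before being `false`. -/
def nF (r c : ℕ) (y : Bool) : ℕ := nT r (255 - c) (!y)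

/-- The best of the levels of the own flips `j < n`. -/
def bestJ (r c : ℕ) (y : Bool) : ℕ → ℕ
  | 0 => 0
  | n + 1 => max (nT r (c ^^^ 2 ^ n) y) (bestJ r c y n)

/-- The condition for the target set, all levels counted from the lowest one. -/
def okY (p q t : ℕ) : Bool :=
  decide (13 ≤ p) || (decide (p = 12) && (decide (13 ≤ q) || decide (13 ≤ t))) ||
    (decide (p < 12) && decide ((2 * (12 - p)) / 3 + 1 + 12 ≤ q) &&
      (decide ((3 * (12 - p)) / 2 + 12 ≤ q) || decide (24 ≤ q + 4 + p)))

/-- The check of one profile: own level `r`, level `q` of a flip, its sign `same`. -/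
def chkG (r q : ℕ) (same y : Bool) (c : ℕ) : Bool :=
  okY (nT r c y) (max (if same then nT q c y else nF q c y) (bestJ r c y 8)) (nT r c (!y))

theorem g0t : allN 256 (chkG 8 9 true true) = true := by decide +kernel

theorem g0f : allN 256 (chkG 8 9 true false) = true := by decide +kernel

theorem g1t : allN 256 (chkG 8 9 false true) = true := by decide +kernel

theorem g1f : allN 256 (chkG 8 9 false false) = true := by decide +kernel

theorem g2t : allN 256 (chkG 7 10 true true) = true := by decide +kernel

theorem g2f : allN 256 (chkG 7 10 true false) = true := by decide +kernel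

theorem g3t : allN 256 (chkG 6 11 true true) = true := by decide +kernel

theorem g3f : allN 256 (chkG 6 11 true false) = true := by decide +kernel

theorem g4t : allN 256 (chkG 5 13 true true) = true := by decide +kernel

theorem g4f : allN 256 (chkG 5 13 true false) = true := by decide +kernel

theorem g5t : allN 256 (chkG 4 14 true true) = true := by decide +kernel

theorem g5f : allN 256 (chkG 4 14 true false) = true := by decide +kernel

theorem g6t : allN 256 (chkG 3 16 true true) = true := by decide +kernel

theorem g6f : allN 256 (chkG 3 16 true false) = true := by decide +kernel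

theorem g7t : allN 256 (chkG 2 17 true true) = true := by decide +kernel

theorem g7f : allN 256 (chkG 2 17 true false) = true := by decide +kernel

theorem g8t : allN 256 (chkG 1 19 true true) = true := by decide +kernel

theorem g8f : allN 256 (chkG 1 19 true false) = true := by decide +kernel

theorem g9t : allN 256 (chkG 0 20 true true) = true := by decide +kernel

theorem g9f : allN 256 (chkG 0 20 true false) = true := by decide +kernel

end Pool.Agent.H77.Nu.BlkS
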