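import Pool.Agent.H77.Nu.BlkS.Check

/-!
A block of 8 columns (MP_1e71f9_co): from the checked data to the step of the chain.
-/

set_option autoImplicit false

namespace Pool.Agent.H77.Nu.BlkS

open Finset Pool.Agent.H67.Nu Pool.Agent.H77.Nu

/-- The code of the signs of the block. -/
def code (t : ℕ → Bool) : ℕ := ∑ j ∈ range 8, if t j then 2 ^ j else 0

theorem code_bits (b : Fin 8 → Bool) :
    let k := ∑ j : Fin 8, if b j then 2 ^ (j : ℕ) else 0
    k < 256 ∧ ∀ j : Fin 8, k.testBit j = b j := by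
  revert b
  decide +kernel

theorem code_spec (s : ℕ → Bool) : code s < 256 ∧ ∀ j < 8, (code s).testBit j = s j := by
  have h := code_bits (fun j => s j)
  have e : code s = ∑ j : Fin 8, if s j then 2 ^ (j : ℕ) else 0 := by
    unfold code
    rw [Finset.sum_range]
  simp only at h
  rw [← e] at h
  exact ⟨h.1, fun j hj => h.2 ⟨j, hj⟩⟩

theorem bits_inj {a b : ℕ} (ha : a < 256) (hb : b < 256)
    (h : ∀ j < 8, a.testBit j = b.testBit j) : a = b := by
  apply Nat.eq_of_testBit_eq
  intro j
  by_cases hj : j < 8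
  · exact h j hj
  · have h7 : ∀ m, m < 256 → m.testBit j = false := fun m hm =>
      Nat.testBit_lt_two_pow (lt_of_lt_of_le hm (by
        calc 256 = 2 ^ 8 := by norm_num
          _ ≤ 2 ^ j := Nat.pow_le_pow_right (by norm_num) (by omega)))
    rw [h7 _ ha, h7 _ hb]

theorem compl_bits : ∀ c < 256, ∀ j < 8, (255 - c).testBit j = !(c.testBit j) := by
  decide +kernel

theorem xor_bits : ∀ k < 256, ∀ i < 8, (k ^^^ 2 ^ i) < 256 ∧
    ∀ j < 8, (k ^^^ 2 ^ i).testBit j = if j = i then !(k.testBit j) else k.testBit j := by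
  decide +kernel

theorem compl_xor : ∀ c < 256, ∀ i < 8, 255 - (c ^^^ 2 ^ i) = (255 - c) ^^^ 2 ^ i := by
  decide +kernel

theorem code_flip (s : ℕ → Bool) {i : ℕ} (hi : i < 8) :
    code (flip s i) = code s ^^^ 2 ^ i := by
  obtain ⟨h1, h2⟩ := code_spec s
  obtain ⟨h3, h4⟩ := code_spec (flip s i)
  obtain ⟨h5, h6⟩ := xor_bits _ h1 i hi
  refine bits_inj h3 h5 fun j hj => ?_
  rw [h4 j hj, h6 j hj]
  by_cases hji : j = i
  · subst hji
    rw [flip_apply_self, if_pos rfl, h2 j hj]
  · rw [flip_apply_ne hji, if_neg hji, h2 j hj]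

theorem bRows_len (r : ℕ) : (bRows r).length = 9 := by simp [bRows]

theorem bRows_getD (r : ℕ) {i : ℕ} (hi : i < 9) : (bRows r).getD i [] = bT.getD (r + i) [] := by
  simp [bRows, List.getD_eq_getElem?_getD, hi]

theorem win_row {r : ℕ} (hr : r < 21) (t : ℕ → Bool) {c : ℕ} (hc : c < 256)
    (ht : ∀ j < 8, c.testBit j = t j) :
    1 ≤ wk (bTab.getD r 0) c ∧ wk (bTab.getD r 0) c ≤ 9 ∧
      Win (fun j i => ((bz j (r + i) : ℤ) : ℝ)) 8 0 true t (wk (bTab.getD r 0) c)
        (ws (bTab.getD r 0) c) := by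
  obtain ⟨hl, hk⟩ := chk_all r hr
  have h := chkL_spec hk c (by rw [hl]; exact hc)
  rw [zero_add] at h
  rcases h with ⟨h1, h2⟩ | ⟨h1, h2⟩
  · rw [h1, h2]
    exact ⟨le_refl _, by norm_num, win_one _ _ _ _ _⟩
  · obtain ⟨-, -, h3, h4⟩ := chkW_spec h2
    rw [ext_length, bRows_len] at h4
    refine ⟨h3, h4, win_of_chk (L := bRows r) ?_ ?_ ht h1 h2 ?_⟩
    · intro i hi
      rw [bRows_len] at hi
      rw [bRows_getD r hi]
      exact bT_len _ (by omega)
    · intro i hi j _
      rw [bRows_len] at hi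
      rw [bRows_getD r hi]
      rfl
    · refine span_of_inv (G := fun a j => ((((bInv.getD r []).getD a []).getD j 0 : ℤ) : ℝ))
        (D := ((bDet.getD r 0 : ℤ) : ℝ)) (by exact_mod_cast bDet_ne r hr) h4 ?_
      intro a ha i hi
      have := congrArg (Int.cast : ℤ → ℝ) (inv_check r hr a ha i hi)
      push_cast at this
      simpa using this

/-- The level of a window and its sign. -/
def om (P : ℤ) (b : Bool) (t : ℕ → Bool) : ℕ × Bool :=
  if (-8 : ℤ) ≤ P ∧ P < (13 : ℤ) then
    (if b then (wk (bTab.getD (P - (-8 : ℤ)).toNat 0) (code t), ws (bTab.getD (P - (-8 : ℤ)).toNat 0) (code t))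
    else (wk (bTab.getD (P - (-8 : ℤ)).toNat 0) (255 - code t),
      !ws (bTab.getD (P - (-8 : ℤ)).toNat 0) (255 - code t)))
  else (1, b)

/-- The block as a real matrix with rows indexed by relative levels. -/
noncomputable def Bz (j : ℕ) (l : ℤ) : ℝ :=
  if (-8 : ℤ) ≤ l then ((bz j (l - (-8 : ℤ)).toNat : ℤ) : ℝ) else 0

/-- The signs of the column after the block. -/
def gz (l : ℤ) : Bool := bG.testBit (l - (-8 : ℤ)).toNat

theorem om_bounds (P : ℤ) (b : Bool) (t : ℕ → Bool) : 1 ≤ (om P b t).1 ∧ (om P b t).1 ≤ 9 := by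
  unfold om
  split_ifs with h hb
  · obtain ⟨h1, h2⟩ := code_spec t
    have := win_row (r := (P - (-8 : ℤ)).toNat) (by omega) t h1 h2
    exact ⟨this.1, this.2.1⟩
  · obtain ⟨h1, h2⟩ := code_spec t
    have := win_row (r := (P - (-8 : ℤ)).toNat) (by omega) (fun j => !t j) (c := 255 - code t)
      (by omega) (fun j hj => by rw [compl_bits _ h1 j hj, h2 j hj])
    exact ⟨this.1, this.2.1⟩
  · exact ⟨le_refl _, by norm_num⟩

theorem om_win (P : ℤ) (b : Bool) (t : ℕ → Bool) :
    Win (fun j i => Bz j (P + i)) 8 0 b t (om P b t).1 (om P b t).2 := by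
  unfold om
  split_ifs with h hb
  · obtain ⟨h1, h2⟩ := code_spec t
    have := (win_row (r := (P - (-8 : ℤ)).toNat) (by omega) t h1 h2).2.2
    subst hb
    refine win_rows this fun j _ i _ => ?_
    show Bz j (P + ((0 + i : ℕ) : ℤ)) = _
    unfold Bz
    rw [if_pos (by omega)]
    have e : (P + ((0 + i : ℕ) : ℤ) - (-8 : ℤ)).toNat = (P - (-8 : ℤ)).toNat + (0 + i) := by omega
    rw [e]
  · have hb' : b = false := by simpa using hb
    obtain ⟨h1, h2⟩ := code_spec t
    have := (win_row (r := (P - (-8 : ℤ)).toNat) (by omega) (fun j => !t j) (c := 255 - code t)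
      (by omega) (fun j hj => by rw [compl_bits _ h1 j hj, h2 j hj])).2.2
    subst hb'
    refine win_neg (ε := true) (win_rows this fun j _ i _ => ?_)
    show Bz j (P + ((0 + i : ℕ) : ℤ)) = _
    unfold Bz
    rw [if_pos (by omega)]
    have e : (P + ((0 + i : ℕ) : ℤ) - (-8 : ℤ)).toNat = (P - (-8 : ℤ)).toNat + (0 + i) := by omega
    rw [e]
  · exact win_one _ _ _ _ _

/-- The code seen from the sign `b`. -/
def cb (b : Bool) (t : ℕ → Bool) : ℕ := if b then code t else 255 - code t

theorem cb_lt (b : Bool) (t : ℕ → Bool) : cb b t < 256 := by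
  have := (code_spec t).1
  unfold cb
  split_ifs <;> omega

theorem cb_flip (b : Bool) (t : ℕ → Bool) {j : ℕ} (hj : j < 8) :
    cb b (flip t j) = cb b t ^^^ 2 ^ j := by
  unfold cb
  rw [code_flip t hj]
  split_ifs
  · rfl
  · exact compl_xor _ (code_spec t).1 j hj

theorem nT_pos (r c : ℕ) (y : Bool) (hk : 1 ≤ wk (bTab.getD r 0) c) :
    ((nT r c y : ℕ) : ℤ) = if y = (bG.testBit (r + wk (bTab.getD r 0) c - 1) ==
      ws (bTab.getD r 0) c) then (r : ℤ) + wk (bTab.getD r 0) c - 1
      else (r : ℤ) + wk (bTab.getD r 0) c := by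
  unfold nT
  split_ifs <;> omega

theorem nx_same {P : ℤ} {r : ℕ} (hr : r < 21) (hP : P = (-8 : ℤ) + r) (b : Bool) (t : ℕ → Bool)
    (y : Bool) :
    nx om gz P b t y = (-8 : ℤ) + nT r (cb b t) (y == b) := by
  have hlev : (P - (-8 : ℤ)).toNat = r := by omega
  have hin : (-8 : ℤ) ≤ P ∧ P < (13 : ℤ) := by omega
  have hk : 1 ≤ wk (bTab.getD r 0) (cb b t) := by
    have := (om_bounds P b t).1
    unfold om at this
    rw [if_pos hin, hlev] at this
    unfold cb
    cases b <;> simpa using this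
  rw [nT_pos r _ _ hk]
  unfold nx om
  rw [if_pos hin, hlev]
  cases b
  · have e1 : cb false t = 255 - code t := by simp [cb]
    rw [e1] at hk ⊢
    simp only [Bool.false_eq_true, if_false]
    have e2 : gz (P + (wk (bTab.getD r 0) (255 - code t) : ℤ) - 1)
        = bG.testBit (r + wk (bTab.getD r 0) (255 - code t) - 1) := by
      unfold gz
      congr 1
      omega
    rw [e2]
    cases y <;> cases bG.testBit (r + wk (bTab.getD r 0) (255 - code t) - 1) <;>
      cases ws (bTab.getD r 0) (255 - code t) <;> simp <;> omega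
  · have e1 : cb true t = code t := by simp [cb]
    rw [e1] at hk ⊢
    simp only [if_true]
    have e2 : gz (P + (wk (bTab.getD r 0) (code t) : ℤ) - 1)
        = bG.testBit (r + wk (bTab.getD r 0) (code t) - 1) := by
      unfold gz
      congr 1
      omega
    rw [e2]
    cases y <;> cases bG.testBit (r + wk (bTab.getD r 0) (code t) - 1) <;>
      cases ws (bTab.getD r 0) (code t) <;> simp <;> omega

theorem nx_opp {P : ℤ} {r : ℕ} (hr : r < 21) (hP : P = (-8 : ℤ) + r) (b : Bool) (t : ℕ → Bool)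
    (y : Bool) :
    nx om gz P (!b) t y = (-8 : ℤ) + nF r (cb b t) (y == b) := by
  rw [nx_same hr hP]
  unfold nF
  have h1 := (code_spec t).1
  have e1 : cb (!b) t = 255 - cb b t := by
    unfold cb
    cases b <;> simp <;> omega
  have e2 : (y == !b) = !(y == b) := by cases y <;> cases b <;> rfl
  rw [e1, e2]

theorem bestJ_spec (r c : ℕ) (y : Bool) (n : ℕ) :
    bestJ r c y n = 0 ∨ ∃ j < n, bestJ r c y n = nT r (c ^^^ 2 ^ j) y := by
  induction n with
  | zero => exact Or.inl rfl
  | succ n ih =>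
    rcases le_total (bestJ r c y n) (nT r (c ^^^ 2 ^ n) y) with h | h
    · right
      exact ⟨n, by omega, by rw [bestJ, max_eq_left h]⟩
    · rcases ih with h1 | ⟨j, hj, h1⟩
      · left
        rw [bestJ, max_eq_right h, h1]
      · right
        exact ⟨j, by omega, by rw [bestJ, max_eq_right h, h1]⟩

theorem okY_spec {p q t : ℕ} (h : okY p q t = true) :
    S0 (-4) (min ((-8 : ℤ) + p - 4) 1) ((-8 : ℤ) + q - 4) ((-8 : ℤ) + t - 4) := by
  unfold okY at h
  simp only [Bool.or_eq_true, Bool.and_eq_true, decide_eq_true_eq] at h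
  unfold S0 F
  omega

/-- One near profile. -/
theorem near {P Q T : ℤ} {r q : ℕ} {same : Bool} (hr : r < 21) (hq : q < 21)
    (hP : P = (-8 : ℤ) + r) (hQ : if same then Q = (-8 : ℤ) + q else T = (-8 : ℤ) + q)
    (hg : ∀ y, allN 256 (chkG r q same y) = true) (b : Bool) (t : ℕ → Bool) (y : Bool) :
    ∃ P' Q' T', S0 (-4) P' Q' T' ∧
      P' + 4 ≤ nx om gz P b t y ∧
      (Q' + 4 ≤ nx om gz Q b t y ∨ Q' + 4 ≤ nx om gz T (!b) t y ∨
        ∃ j < 8, Q' + 4 ≤ nx om gz P b (flip t j) y) ∧
      T' + 4 ≤ nx om gz P b t (!y) := by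
  have h := allN_spec (hg (y == b)) _ (cb_lt b t)
  unfold chkG at h
  refine ⟨_, _, _, okY_spec h, ?_, ?_, ?_⟩
  · rw [nx_same hr hP]
    omega
  · have hbest : ∀ v : ℕ, v = bestJ r (cb b t) (y == b) 8 →
        (v = 0 ∨ ∃ j < 8, ((-8 : ℤ) : ℤ) + v = nx om gz P b (flip t j) y) := by
      intro v hv
      rcases bestJ_spec r (cb b t) (y == b) 8 with h1 | ⟨j, hj, h1⟩
      · left; rw [hv, h1]
      · right
        refine ⟨j, hj, ?_⟩
        rw [nx_same hr hP, cb_flip b t hj, hv, h1]
    have hb := hbest _ rfl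
    cases same
    · simp only [Bool.false_eq_true, if_false] at hQ ⊢
      rw [nx_opp hq hQ]
      rcases le_total (nF q (cb b t) (y == b)) (bestJ r (cb b t) (y == b) 8) with h2 | h2
      · rw [max_eq_right h2]
        rcases hb with h3 | ⟨j, hj, h3⟩
        · right; left
          have : nF q (cb b t) (y == b) = 0 := by omega
          rw [h3, this]
          omega
        · right; right
          exact ⟨j, hj, by rw [← h3]; omega⟩
      · rw [max_eq_left h2]
        right; left
        omega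
    · simp only [if_true] at hQ ⊢
      rw [nx_same hq hQ]
      rcases le_total (nT q (cb b t) (y == b)) (bestJ r (cb b t) (y == b) 8) with h2 | h2
      · rw [max_eq_right h2]
        rcases hb with h3 | ⟨j, hj, h3⟩
        · left
          have : nT q (cb b t) (y == b) = 0 := by omega
          rw [h3, this]
          omega
        · right; right
          exact ⟨j, hj, by rw [← h3]; omega⟩
      · rw [max_eq_left h2]
        left
        omega
  · rw [nx_same hr hP]
    have e : ((!y) == b) = !(y == b) := by cases y <;> cases b <;> rfl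
    rw [e]
    omega

/-- The generators of the set `XS 4`. -/
def XG (P Q T : ℤ) : Prop :=
  (P = 0 ∧ Q = 1) ∨ (P = 0 ∧ T = 1) ∨ (-8 ≤ P ∧ P ≤ -1 ∧ Q = (3 * -P + 1) / 2) ∨
    (P ≤ -9 ∧ Q = 4 - P)

theorem exG {N : ℕ} {R : ℤ} (h : Ex N R (XS 4)) : Ex N R XG := by
  obtain ⟨x, e, h⟩ := h
  refine ⟨x, e, ?_⟩
  have := h.mono 0 (X' := XG) fun P Q T hX => ?_
  · simpa using this
  · unfold XS at hX
    by_cases h1 : P = 0 ∧ 1 ≤ Q
    · exact ⟨0, 1, T, by unfold XG; omega, by omega, by omega, by omega⟩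
    by_cases h2 : P = 0 ∧ 1 ≤ T
    · exact ⟨0, Q, 1, by unfold XG; omega, by omega, by omega, by omega⟩
    by_cases h3 : -8 ≤ P
    · exact ⟨P, (3 * -P + 1) / 2, T, by unfold XG; omega, by omega, by omega, by omega⟩
    · exact ⟨P, 4 - P, T, by unfold XG; omega, by omega, by omega, by omega⟩

theorem nx_ge (P : ℤ) (b : Bool) (t : ℕ → Bool) (y : Bool) : P ≤ nx om gz P b t y := by
  have := (om_bounds P b t).1
  unfold nx
  split_ifs <;> omega

theorem blk_check : Check 8 om gz 4 XG (S0 (-4)) := by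
  intro P Q T hX b t y
  rcases hX with ⟨h1, h2⟩ | ⟨h1, h2⟩ | ⟨h1, h2, h3⟩ | ⟨h1, h2⟩
  · exact near (r := 8) (q := 9) (same := true) (by omega) (by omega) (by omega)
      (by simp only [if_true]; omega) (by intro y; cases y; exacts [g0f, g0t]) b t y
  · exact near (r := 8) (q := 9) (same := false) (by omega) (by omega) (by omega)
      (by simp only [Bool.false_eq_true, if_false]; omega)
      (by intro y; cases y; exacts [g1f, g1t]) b t y
  · have hcase : P = -1 ∨ P = -2 ∨ P = -3 ∨ P = -4 ∨ P = -5 ∨ P = -6 ∨ P = -7 ∨ P = -8 := by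
      omega
    rcases hcase with rfl | rfl | rfl | rfl | rfl | rfl | rfl | rfl
    · exact near (r := 7) (q := 10) (same := true) (by omega) (by omega) (by omega)
        (by simp only [if_true]; omega) (by intro y; cases y; exacts [g2f, g2t]) b t y
    · exact near (r := 6) (q := 11) (same := true) (by omega) (by omega) (by omega)
        (by simp only [if_true]; omega) (by intro y; cases y; exacts [g3f, g3t]) b t y
    · exact near (r := 5) (q := 13) (same := true) (by omega) (by omega) (by omega)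
        (by simp only [if_true]; omega) (by intro y; cases y; exacts [g4f, g4t]) b t y
    · exact near (r := 4) (q := 14) (same := true) (by omega) (by omega) (by omega)
        (by simp only [if_true]; omega) (by intro y; cases y; exacts [g5f, g5t]) b t y
    · exact near (r := 3) (q := 16) (same := true) (by omega) (by omega) (by omega)
        (by simp only [if_true]; omega) (by intro y; cases y; exacts [g6f, g6t]) b t y
    · exact near (r := 2) (q := 17) (same := true) (by omega) (by omega) (by omega)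
        (by simp only [if_true]; omega) (by intro y; cases y; exacts [g7f, g7t]) b t y
    · exact near (r := 1) (q := 19) (same := true) (by omega) (by omega) (by omega)
        (by simp only [if_true]; omega) (by intro y; cases y; exacts [g8f, g8t]) b t y
    · exact near (r := 0) (q := 20) (same := true) (by omega) (by omega) (by omega)
        (by simp only [if_true]; omega) (by intro y; cases y; exacts [g9f, g9t]) b t y
  · refine ⟨P - 4, Q - 4, P - 4, ?_, ?_, Or.inl ?_, ?_⟩
    · unfold S0 F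
      omega
    · have := nx_ge P b t y
      omega
    · have := nx_ge Q b t y
      omega
    · have := nx_ge P b t (!y)
      omega

/-- The block sends the set `XS 4` into the set `S0 (-4)`. -/
theorem block_ok : BlockOK 9 4 4 (-4) (4 + 2 * (3 : ℕ)) := by
  intro N R hR h
  refine block_ex (m := 8) (K := 9) (Bz := Bz) (ω := om) (gz := gz) om_bounds om_win ?_ blk_check
    (exG h)
  intro P b t hP
  unfold om
  rw [if_neg (by push_cast at hR; omega)]

/-- `t` blocks and a tail of `5 u` columns. -/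
theorem bad (t u r : ℕ) (hr : r ≤ 10 + 19 * t + 2 * u) : Bad (24 + 47 * t + 5 * u) r := by
  have := bad_chain 3 block_ok (by norm_num) (by norm_num) 7 (by norm_num) t u r
    (by push_cast; omega)
  have e : 9 + 5 * 3 + (9 + 5 * 7 + 3) * t + 5 * u = 24 + 47 * t + 5 * u := by ring
  rwa [e] at this

theorem points_of_bad {N d : ℕ} (h : Bad N (d + 1)) (n : ℕ) (hn : N ≤ n) :
    ∃ x : Fin n → Fin d → ℝ, GenPos x ∧ ¬ Mappable x := by
  obtain ⟨x, hx⟩ := h
  obtain ⟨w, hb, hg, h0⟩ := exists_generic (SBad.of_dead hx n hn)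
  exact ⟨_, not_mappable w hb hg h0⟩

/-- `ν(d) ≤ (47 d + 89) / 19` for all `d ≥ 9`. -/
theorem main (d n : ℕ) (hd : 9 ≤ d) (hn : 47 * d + 90 ≤ 19 * n) :
    ∃ x : Fin n → Fin d → ℝ, GenPos x ∧ ¬ Mappable x := by
  obtain ⟨t, u, h1, h2⟩ : ∃ t u, d ≤ 9 + 19 * t + 2 * u ∧ 24 + 47 * t + 5 * u ≤ n :=
    ⟨(d - 9) / 19, ((d - 9) % 19 + 1) / 2, by omega, by omega⟩
  exact points_of_bad (bad t u (d + 1) (by omega)) n h2

end Pool.Agent.H77.Nu.BlkS
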